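import Pool.Agent.W963.GE.Final

/-!
# MP_d69e80_al: for virtually nilpotent-by-(nilpotent of class `k`) groups the growth gap is
equivalent to Lehmer's conjecture

Idea of the proof.  By the starting file of this problem (and a Schreier argument for subgroups of
index at most `d` with positive words) the growth rate is at least `η(x) / (2 ^ (k+1) (2 d - 1))`,
where `x` is an algebraic unit, not a root of unity, and `η(x)` is the growth rate of the number of
sums `∑_{i < n} ε_i x ^ i` with digits `ε_i ∈ {0, 1}`.  New is the inequality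
`|{∑_{i < n} ε_i x ^ i}| ≥ (2 / (1 + exp (1 / M² - 1))) ^ n`, `M` the Mahler measure of `x`.
For its proof let `x_1, …, x_r` be the conjugates of `x` outside the unit disc, `v = (1, …, 1)`,
`A = diag (x_i)` and `P = (1 / (x_i \bar x_j - 1))` the Pick matrix, so that `A P A* = P + v v*` and
`1 + v* P⁻¹ v = M²`.  With the quadratic form `N(z) = z* P⁻¹ z` one has
`N(A y) = N(y) + |v* P⁻¹ A y|² / M²`, and with `1 + a cosh u ≤ (1 + a) exp (u² / 4)` for
`0 ≤ a ≤ 1` one gets, by induction on `n`, that the sum of the weights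
`exp (- N(∑ D_i A ^ i v) / M²)` over all pairs of digit sequences (`D` the difference) is at most
`(2 + 2 exp (1 / M² - 1)) ^ n`; pairs with equal digit sums have weight `1`.  The upper bound
`(2 n) ^ deg(x) M ^ n` for the number of digit sums is proved by reduction modulo an integer.
-/

set_option autoImplicit false

namespace Pool.Agent.Results.MP_d69e80_al.LehmerEquivalence

open Filter Topology Polynomial
open Pool.Agent
open scoped Pointwise commutatorElement

universe u

/-- The exponential growth rate `ρ_S = lim (1/n) log |S ^ n|`, where `S ^ n` is the set of all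
products of `n` elements of `S` (pointwise power of sets). -/
noncomputable def rho {G : Type*} [Group G] (S : Set G) : ℝ :=
  limUnder atTop (fun n : ℕ => Real.log (Nat.card ↥(S ^ n)) / n)

/-- `x` is an algebraic unit (`x` and `x⁻¹` are algebraic integers) and not a root of unity. -/
def UnitNotRoot (x : ℂ) : Prop :=
  x ≠ 0 ∧ IsIntegral ℤ x ∧ IsIntegral ℤ x⁻¹ ∧ ∀ m > 0, x ^ m ≠ 1

/-- The Mahler measure of an integer polynomial. -/
noncomputable def mahler (p : ℤ[X]) : ℝ := (p.map (Int.castRingHom ℂ)).mahlerMeasure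

/-- Lehmer's conjecture: there is `ε > 0` such that the Mahler measure of every nonzero integer
polynomial is `1` or at least `1 + ε`. -/
def Lehmer : Prop :=
  ∃ ε : ℝ, 0 < ε ∧ ∀ p : ℤ[X], p ≠ 0 → mahler p = 1 ∨ 1 + ε ≤ mahler p

/-- The term `γ_{k+1}(G)` of the lower central series (so `k = 1` gives `G'`). -/
abbrev gamma (G : Type*) [Group G] (k : ℕ) : Subgroup G := (⊤ : Subgroup G).lowerCentralSeries k

/-- The class of groups, for `k` and `d`: there is a subgroup `H` of finite index, at most `d`, such
that, with `Γ = γ_{k+1}(H)`, either `Γ` is nilpotent or `H / [Γ, Γ]` is not virtually nilpotent. -/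
def InClass (k d : ℕ) (G : Type*) [Group G] : Prop :=
  ∃ H : Subgroup G, H.index ≠ 0 ∧ H.index ≤ d ∧ (Group.IsNilpotent (gamma H k) ∨
    ¬ Group.IsVirtuallyNilpotent (H ⧸ ⁅gamma H k, gamma H k⁆))

/-- The growth gap with constant `c` for metabelian groups (solvability class at most 2). -/
def ClassTwoGap (c : ℝ) : Prop :=
  ∀ (G : Type) [Group G] (S : Set G), S.Finite → Subgroup.closure S = ⊤ →
    derivedSeries G 2 = ⊥ → Group.IsVirtuallyNilpotent G ∨ c ≤ rho S

/-- The growth gap with constant `c` for the groups in the class for `k` and `d`. -/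
def ClassGap (k d : ℕ) (c : ℝ) : Prop :=
  ∀ (G : Type) [Group G] (S : Set G), S.Finite → Subgroup.closure S = ⊤ →
    InClass k d G → Group.IsVirtuallyNilpotent G ∨ c ≤ rho S

/-- (1) Let `k ≥ 1` and let `S` be a finite generating set (not assumed symmetric) of a group `G` in
the class for `k` and `d`.  Then `ρ_S` exists, and `G` is virtually nilpotent or there is an
algebraic unit `x`, not a root of unity, with Mahler measure `M > 1` and
`ρ_S ≥ log (2 / (1 + exp (1 / M² - 1))) / (2 ^ (k+1) (2 d - 1))`.
(2) If all Mahler measures of integer polynomials are `1` or at least `1 + ε`, then the gap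
`log (2 / (1 + exp (1 / (1 + ε)² - 1))) / (2 ^ (k+1) (2 d - 1))` holds in the class for `k` and `d`.
(3) Lehmer's conjecture, the positive answer to the question for solvability class 2, and the
existence, for all `k` and `d`, of a positive gap in the class for `k` and `d` are equivalent. -/
theorem result :
    (∀ k d : ℕ, 1 ≤ k → ∀ (G : Type u) [Group G] (S : Set G), S.Finite →
      Subgroup.closure S = ⊤ → InClass k d G →
      Tendsto (fun n : ℕ => Real.log (Nat.card ↥(S ^ n)) / n) atTop (𝓝 (rho S)) ∧
      (Group.IsVirtuallyNilpotent G ∨ ∃ x : ℂ, UnitNotRoot x ∧ 1 < mahler (minpoly ℤ x) ∧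
        Real.log (2 / (1 + Real.exp (1 / mahler (minpoly ℤ x) ^ 2 - 1))) /
          (2 ^ (k + 1) * (2 * d - 1)) ≤ rho S)) ∧
    (∀ ε : ℝ, 0 < ε → (∀ p : ℤ[X], p ≠ 0 → mahler p = 1 ∨ 1 + ε ≤ mahler p) →
      ∀ k d : ℕ, 1 ≤ k → ClassGap k d
        (Real.log (2 / (1 + Real.exp (1 / (1 + ε) ^ 2 - 1))) / (2 ^ (k + 1) * (2 * d - 1)))) ∧
    (Lehmer ↔ ∃ c > 0, ClassTwoGap c) ∧
    (Lehmer ↔ ∀ k d : ℕ, 1 ≤ k → 1 ≤ d → ∃ c > 0, ClassGap k d c) := by
  have hbase : ∀ M : ℝ, 2 / (1 + Real.exp (1 / M ^ 2 - 1)) = W963.GE.base M := by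
    intro M
    unfold W963.GE.base
    congr 3
    ring
  refine ⟨?_, ?_, W963.GE.equivalences.1, W963.GE.equivalences.2⟩
  · intro k d hk G _ S hS hgen hG
    refine ⟨H746UG.tendsto_rho S, ?_⟩
    rcases W963.GE.main_ineq k d hk G S hS hgen hG with h | ⟨x, hx, h⟩
    · exact Or.inl h
    · refine Or.inr ⟨x, hx, W963.GE.MM_gt x hx.2.1 hx.1 hx.2.2.2, ?_⟩
      rw [hbase]
      exact h
  · intro ε hε hL k d hk
    rw [hbase]
    exact W963.GE.gap_of_lehmer hε hL k d hk

end Pool.Agent.Results.MP_d69e80_al.LehmerEquivalence
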